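import Pool.Agent.H28.GN.T3

/-!
# BDG: basic facts on the box averages
-/

set_option autoImplicit false

open MeasureTheory ProbabilityTheory Filter Topology Finset

namespace Pool.Agent.H4.THG

open Pool.Agent.H28.GN
open Pool.Agent.H28.LF (Xi wX)

lemma norm_cv {J : ℕ} (ω : Fin J → Bool) (z : ℂ) : ‖Pool.Agent.H28.GN.cv ω z‖ = ‖z‖ := by
  unfold Pool.Agent.H28.GN.cv
  split_ifs
  · rfl
  · exact RCLike.norm_conj z

lemma norm_st {J : ℕ} {u : Bool × Bool → ℂ} (hu : ∀ b, ‖u b‖ = 1)
    (w : (Fin J → Bool) → ℕ → Bool × Bool) (i : ℕ) : ‖st u w i‖ = 1 := by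
  unfold st
  rw [norm_prod]
  exact Finset.prod_eq_one fun ω _ => by rw [norm_cv, hu]

lemma norm_Pr {J : ℕ} {u : Bool × Bool → ℂ} (hu : ∀ b, ‖u b‖ = 1)
    (w : (Fin J → Bool) → ℕ → Bool × Bool) (l k : ℕ) : ‖Pool.Agent.H28.GN.Pr u w l k‖ = 1 := by
  unfold Pool.Agent.H28.GN.Pr
  rw [norm_prod]
  exact Finset.prod_eq_one fun i _ => norm_st hu w _

lemma norm_mm {J : ℕ} {u : Bool × Bool → ℂ} (hu : ∀ b, ‖u b‖ = 1) {K : ℕ} (hK : 0 < K)
    (w : (Fin J → Bool) → ℕ → Bool × Bool) (l : ℕ) : ‖Pool.Agent.H28.GN.mm u K w l‖ ≤ 1 := by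
  unfold Pool.Agent.H28.GN.mm
  have hKr : (0 : ℝ) < K := by exact_mod_cast hK
  rw [norm_div, Complex.norm_natCast, div_le_one hKr]
  refine (norm_sum_le _ _).trans (le_of_eq ?_)
  rw [Finset.sum_congr rfl fun k _ => norm_Pr hu w l (k + 1)]
  simp

lemma card_Bx (J H : ℕ) : (Bx J H).card = H ^ (2 * J) := by
  unfold Bx
  simp [Fintype.card_piFinset, pow_mul]

lemma ps_le {J H : ℕ} (c : ℕ) {t : Fin J → Bool → ℕ} (ht : t ∈ Bx J H) (ω : Fin J → Bool) :
    Pool.Agent.H28.GN.ps c t ω ≤ c * J * H := by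
  unfold Pool.Agent.H28.GN.ps
  rw [mul_assoc]
  apply Nat.mul_le_mul_left
  calc ∑ j, t j (ω j) ≤ ∑ _j : Fin J, H := by
        apply Finset.sum_le_sum
        intro j _
        unfold Bx at ht
        rw [Fintype.mem_piFinset] at ht
        have h1 := ht j
        rw [Fintype.mem_piFinset] at h1
        exact (Finset.mem_range.1 (h1 (ω j))).le
    _ = J * H := by
        rw [Finset.sum_const, Finset.card_univ, Fintype.card_fin, smul_eq_mul]

lemma mm_congr {J : ℕ} (u : Bool × Bool → ℂ) (c : ℕ) {H K : ℕ} {t : Fin J → Bool → ℕ}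
    (ht : t ∈ Bx J H) {w w' : ℕ → Bool × Bool} (h : ∀ i < c * J * H + K, w i = w' i) :
    Pool.Agent.H28.GN.mm u K (Pool.Agent.H28.GN.bl c t w) 0 =
      Pool.Agent.H28.GN.mm u K (Pool.Agent.H28.GN.bl c t w') 0 := by
  unfold Pool.Agent.H28.GN.mm
  congr 1
  refine Finset.sum_congr rfl fun k hk => ?_
  unfold Pool.Agent.H28.GN.Pr
  refine Finset.prod_congr rfl fun i hi => ?_
  unfold st
  refine Finset.prod_congr rfl fun ω _ => ?_
  unfold Pool.Agent.H28.GN.bl
  rw [h]
  have h1 := ps_le c ht ω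
  rw [Finset.mem_range] at hk hi
  omega

lemma DG_congr (u : Bool × Bool → ℂ) (c J H K : ℕ) {w w' : ℕ → Bool × Bool}
    (h : ∀ i < c * J * H + K, w i = w' i) : DG u c J H K w = DG u c J H K w' := by
  unfold DG
  congr 1
  refine Finset.sum_congr rfl fun t ht => ?_
  rw [mm_congr u c ht h]

theorem pf_BDG : T_BDG := by
  intro u c J H K hu hH hK
  have hHr : (0 : ℝ) < H := by exact_mod_cast hH
  refine ⟨fun w => ⟨?_, ?_⟩, fun w w' h => DG_congr u c J H K h, ?_, ?_⟩
  · unfold DG
    positivity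
  · unfold DG
    rw [div_le_one (by positivity)]
    calc ∑ t ∈ Bx J H, ‖Pool.Agent.H28.GN.mm u K (Pool.Agent.H28.GN.bl c t w) 0‖ ^ 2
        ≤ ∑ _t ∈ Bx J H, (1 : ℝ) := by
          apply Finset.sum_le_sum
          intro t _
          exact pow_le_one₀ (norm_nonneg _) (norm_mm hu hK _ _)
      _ = (H : ℝ) ^ (2 * J) := by
          rw [Finset.sum_const, card_Bx, nsmul_eq_mul, mul_one]
          push_cast
          rfl
  · have h1 : ∀ i : ℕ, Continuous fun ξ : Xi => u (wX ξ i) := by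
      intro i
      have h2 : Continuous fun ξ : Xi => wX ξ i := by
        unfold wX
        exact continuous_fst.comp (continuous_apply ((i : ℤ) + 1))
      exact continuous_of_discreteTopology.comp h2
    have h3 : ∀ (ω : Fin J → Bool) (i : ℕ), Continuous fun ξ : Xi =>
        Pool.Agent.H28.GN.cv ω (u (wX ξ i)) := by
      intro ω i
      unfold Pool.Agent.H28.GN.cv
      split_ifs
      · exact h1 i
      · exact Complex.continuous_conj.comp (h1 i)
    have h4 : ∀ t : Fin J → Bool → ℕ, Continuous fun ξ : Xi =>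
        Pool.Agent.H28.GN.mm u K (Pool.Agent.H28.GN.bl c t (wX ξ)) 0 := by
      intro t
      unfold Pool.Agent.H28.GN.mm
      apply Continuous.div_const
      refine continuous_finsetSum _ fun k _ => ?_
      unfold Pool.Agent.H28.GN.Pr
      refine continuous_finsetProd _ fun i _ => ?_
      unfold st
      refine continuous_finsetProd _ fun ω _ => ?_
      exact h3 ω _
    unfold DG
    apply Continuous.div_const
    refine continuous_finsetSum _ fun t _ => ?_
    exact (h4 t).norm.pow 2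
  · set N := c * J * H + K with hN
    let ext : (Fin N → Bool × Bool) → ℕ → Bool × Bool :=
      fun v i => if h : i < N then v ⟨i, h⟩ else (false, false)
    refine (Set.finite_range fun v : Fin N → Bool × Bool => DG u c J H K (ext v)).subset ?_
    rintro _ ⟨w, rfl⟩
    refine ⟨fun i => w i, ?_⟩
    apply DG_congr
    intro i hi
    have hi' : i < N := hi
    simp only [ext, hi', dif_pos]

end Pool.Agent.H4.THG
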